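import Pool.Agent.Lib.MP_29e051_nt.Digits

set_option autoImplicit false

namespace Pool.Agent.Results.MP_29e051_nt.NotAutomatic

/-- `a` is `k`-automatic: a finite automaton with output, fed the base-`k` digits of `n` (most
significant digit first, or least significant digit first), outputs `a n`. -/
def IsAutomatic {α : Type} (k : ℕ) (a : ℕ → α) : Prop :=
  ∃ (σ : Type) (_ : Finite σ) (δ : σ → ℕ → σ) (q₀ : σ) (out : σ → α),
    (∀ n, a n = out ((Nat.digits k n).reverse.foldl δ q₀)) ∨
    (∀ n, a n = out ((Nat.digits k n).foldl δ q₀))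

open Pool.Agent.Lib.MP_29e051_nt in
theorem result (k : ℕ) [NeZero k] (hk : 2 ≤ k) :
    ¬ IsAutomatic k (Real.digits (∑' n : ℕ, 1 / ((k : ℝ) ^ (n + 1) - 1)) k) := by
  rw [lambert hk]
  have hZ : ∀ n, Z k n ↔ Real.digits (T k 0) k n = 0 := by
    intro n
    unfold Z Real.digits
    rw [Fin.ext_iff, Fin.val_ofNat, Nat.dvd_iff_mod_eq_zero]
    rfl
  rintro ⟨σ, _, δ, q₀, out, h | h⟩
  · refine no_colouring hk (fun v => (Nat.digits k v).reverse.foldl δ q₀) ?_
    intro u v hu hv huv e w hw
    obtain ⟨L, hL⟩ := digits_block hk hw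
    rw [hZ, hZ, h, h, hL u hu, hL v hv, List.reverse_append, List.reverse_append,
      List.foldl_append, List.foldl_append, huv]
    exact id
  · refine no_colouring hk (fun v q => (Nat.digits k v).foldl δ q) ?_
    intro u v hu hv huv e w hw
    obtain ⟨L, hL⟩ := digits_block hk hw
    rw [hZ, hZ, h, h, hL u hu, hL v hv, List.foldl_append, List.foldl_append,
      congrFun huv _]
    exact id

end Pool.Agent.Results.MP_29e051_nt.NotAutomatic
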