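import Pool.Agent.Lib.MP_29e051_nt.NnMain

set_option autoImplicit false

open Filter Topology

namespace Pool.Agent.Results.MP_29e051_nt.NotNormal

open Pool.Agent.Lib.MP_29e051_nt in
theorem result (k : ℕ) [NeZero k] (a : ℕ) (ha : 3 ≤ a) (hk : k = 2 ^ a) :
    ¬ ∀ c : Fin k, Tendsto
      (fun N : ℕ => (((Finset.range N).filter
        (fun n => Real.digits (∑' m : ℕ, 1 / ((k : ℝ) ^ (m + 1) - 1)) k n = c)).card : ℝ) / N)
      atTop (𝓝 (1 / (k : ℝ))) := by
  subst hk
  rw [lambert (le_self_pow₀ (by norm_num) (by omega))]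
  refine not_simply_normal a ha _ fun m => ?_
  unfold Real.digits
  rw [Fin.val_ofNat]

end Pool.Agent.Results.MP_29e051_nt.NotNormal
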